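import Pool.Agent.MP_b0afd3_gt.H80.Base

set_option autoImplicit false

namespace Pool.Agent.MP_b0afd3_gt.H14

open Real MeasureTheory Set Matrix
open Pool.Agent.MP_b0afd3_gt.H80

/-- the matrix of the linear forms `mink (n i)` -/
def nm (n : Fin 4 → Fin 4 → ℝ) : Matrix (Fin 4) (Fin 4) ℝ :=
  Matrix.of fun i => ![-n i 0, n i 1, n i 2, n i 3]

/-- the matrix whose columns are the lifted vertices -/
def vm (p : Fin 4 → Fin 3 → ℝ) : Matrix (Fin 4) (Fin 4) ℝ := Matrix.of fun k j => lift (p j) k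

/-- the Minkowski form -/
def jm : Matrix (Fin 4) (Fin 4) ℝ := Matrix.diagonal ![-1, 1, 1, 1]

def gm (a b c d e f : ℝ) : Matrix (Fin 4) (Fin 4) ℝ :=
  !![1, a, e, d; a, 1, c, b; e, c, 1, f; d, b, f, 1]

def am (a b c d e f : ℝ) : Matrix (Fin 4) (Fin 4) ℝ :=
  !![vtx f b c, cof f b d c e a, cof b f d c a e, cof c f e b a d;
    cof f b d c e a, vtx f d e, cof d f b e a c, cof e f c d a b;
    cof b f d c a e, cof d f b e a c, vtx a b d, cof a b c d e f;
    cof c f e b a d, cof e f c d a b, cof a b c d e f, vtx a c e]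

lemma nm_mulVec (n : Fin 4 → Fin 4 → ℝ) (x : Fin 4 → ℝ) (i : Fin 4) :
    (nm n *ᵥ x) i = mink (n i) x := by
  simp [nm, mulVec, dotProduct, Fin.sum_univ_four, mink]; ring

lemma gm_mul_am (a b c d e f : ℝ) : gm a b c d e f * am a b c d e f = gdet a b c d e f • 1 := by
  ext i j
  fin_cases i <;> fin_cases j <;>
    simp [gm, am, Matrix.mul_apply, Fin.sum_univ_four, gdet, vtx, cof] <;> ring

lemma det_gm (a b c d e f : ℝ) : (gm a b c d e f).det = gdet a b c d e f := by
  simp [gm, Matrix.det_succ_row_zero, Fin.sum_univ_succ, Fin.succAbove, gdet]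
  ring

lemma adjq_eq (a b c d e f : ℝ) (y : Fin 4 → ℝ) :
    adjq a b c d e f y = y ⬝ᵥ (am a b c d e f *ᵥ y) := by
  simp [adjq, am, mulVec, dotProduct, Fin.sum_univ_four]; ring

lemma jm_mul_jm : jm * jm = 1 := by
  ext i j
  fin_cases i <;> fin_cases j <;> simp [jm, Matrix.mul_apply, Matrix.diagonal]

lemma det_jm : jm.det = -1 := by
  simp [jm, det_diagonal, Fin.prod_univ_four]

lemma mink_eq (x y : Fin 4 → ℝ) : mink x y = x ⬝ᵥ (jm *ᵥ y) := by
  simp [jm, mink, mulVec_diagonal, dotProduct, Fin.sum_univ_four]; ring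

lemma mink_comm (x y : Fin 4 → ℝ) : mink x y = mink y x := by
  simp [mink]; ring

lemma njn (n : Fin 4 → Fin 4 → ℝ) (i j : Fin 4) :
    (nm n * jm * (nm n)ᵀ) i j = mink (n i) (n j) := by
  simp [nm, jm, Matrix.mul_apply, Fin.sum_univ_four, mink, Matrix.diagonal]; ring

lemma vjv (p : Fin 4 → Fin 3 → ℝ) (i j : Fin 4) :
    ((vm p)ᵀ * jm * vm p) i j = mink (lift (p i)) (lift (p j)) := by
  simp [vm, jm, Matrix.mul_apply, Fin.sum_univ_four, mink, Matrix.diagonal]; ring

section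
variable {p : Fin 4 → Fin 3 → ℝ} {n : Fin 4 → Fin 4 → ℝ}

/-- inverse of the diagonal matrix `nm * vm` -/
noncomputable def em (p : Fin 4 → Fin 3 → ℝ) (n : Fin 4 → Fin 4 → ℝ) :
    Matrix (Fin 4) (Fin 4) ℝ := Matrix.diagonal fun i => (mink (n i) (lift (p i)))⁻¹

lemma nm_vm (h : Tetra p n) : nm n * (vm p * em p n) = 1 := by
  have h1 : nm n * vm p = Matrix.diagonal fun i => mink (n i) (lift (p i)) := by
    ext i j
    have : (nm n * vm p) i j = mink (n i) (lift (p j)) := by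
      rw [← nm_mulVec]; simp [Matrix.mul_apply, mulVec, dotProduct, vm]
    rw [this]
    by_cases hij : i = j
    · subst hij; simp
    · rw [diagonal_apply_ne _ hij]; exact h.face j i (Ne.symm hij)
  rw [← Matrix.mul_assoc, h1, em, diagonal_mul_diagonal, ← diagonal_one]
  congr 1
  ext i
  exact mul_inv_cancel₀ (h.outer i).ne

lemma vm_nm (h : Tetra p n) : (vm p * em p n) * nm n = 1 := mul_eq_one_comm.mp (nm_vm h)

lemma det_nm_ne (h : Tetra p n) : (nm n).det ≠ 0 := by
  intro h0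
  have := congrArg Matrix.det (nm_vm h)
  rw [det_mul, h0] at this
  simp at this

lemma mink_lift_neg (h : Tetra p n) (i j : Fin 4) : mink (lift (p i)) (lift (p j)) < 0 := by
  have h1 := h.ball i
  have h2 := h.ball j
  simp only [mink, lift]
  simp
  nlinarith [sq_nonneg (p i 0 - p j 0), sq_nonneg (p i 1 - p j 1), sq_nonneg (p i 2 - p j 2)]

end

/-- the cone map -/
def phi (z : Fin 4 → ℝ) : Fin 4 → ℝ := ![z 0, z 0 * z 1, z 0 * z 2, z 0 * z 3]

def dphi (z : Fin 4 → ℝ) : Matrix (Fin 4) (Fin 4) ℝ :=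
  !![1, 0, 0, 0; z 1, z 0, 0, 0; z 2, 0, z 0, 0; z 3, 0, 0, z 0]

lemma det_dphi (z : Fin 4 → ℝ) : (dphi z).det = z 0 ^ 3 := by
  simp [dphi, Matrix.det_succ_row_zero, Fin.sum_univ_succ, Fin.succAbove]
  ring

lemma hasFDerivAt_phi (z : Fin 4 → ℝ) :
    HasFDerivAt phi (LinearMap.toContinuousLinearMap (Matrix.toLin' (dphi z))) z := by
  have hc : ∀ i : Fin 4, HasFDerivAt (fun w : Fin 4 → ℝ => w i)
      (ContinuousLinearMap.proj i : (Fin 4 → ℝ) →L[ℝ] ℝ) z := fun i => hasFDerivAt_apply i z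
  rw [hasFDerivAt_pi']
  intro i
  fin_cases i
  · refine (hc 0).congr_fderiv ?_
    ext v; simp [dphi, dotProduct, Fin.sum_univ_four]
  · refine ((hc 0).mul (hc 1)).congr_fderiv ?_
    ext v; simp [dphi, dotProduct, Fin.sum_univ_four]; ring
  · refine ((hc 0).mul (hc 2)).congr_fderiv ?_
    ext v; simp [dphi, dotProduct, Fin.sum_univ_four]; ring
  · refine ((hc 0).mul (hc 3)).congr_fderiv ?_
    ext v; simp [dphi, dotProduct, Fin.sum_univ_four]; ring

lemma radial {s c : ℝ} (hs : 0 < s) (hc : 0 ≤ c) :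
    ∫⁻ t in Ioi (0 : ℝ), ENNReal.ofReal (c * (t ^ 3 * exp (-(s / 2) * t ^ 2))) =
      ENNReal.ofReal (2 * c) * ENNReal.ofReal (1 / s ^ 2) := by
  have h1 := integral_rpow_mul_exp_neg_mul_rpow (p := 2) (q := 3) (b := s / 2) (by norm_num)
    (by norm_num) (by positivity)
  have h2 : ∫ t in Ioi (0 : ℝ), t ^ 3 * exp (-(s / 2) * t ^ 2) = 2 / s ^ 2 := by
    have e1 : (-((3 : ℝ) + 1) / 2) = ((-2 : ℤ) : ℝ) := by norm_num
    have e2 : (((3 : ℝ) + 1) / 2) = 2 := by norm_num
    rw [e1, e2, Real.Gamma_two, Real.rpow_intCast] at h1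
    have e3 : ∀ t : ℝ, t ^ (3 : ℝ) * exp (-(s / 2) * t ^ (2 : ℝ)) =
        t ^ 3 * exp (-(s / 2) * t ^ 2) := by
      intro t
      rw [show (3 : ℝ) = ((3 : ℕ) : ℝ) by norm_num, Real.rpow_natCast, Real.rpow_two]
    simp only [e3] at h1
    rw [h1]
    simp only [_root_.zpow_neg, zpow_ofNat]
    field_simp
  have h3 : IntegrableOn (fun t : ℝ => t ^ 3 * exp (-(s / 2) * t ^ 2)) (Ioi 0) := by
    apply Integrable.of_integral_ne_zero
    rw [h2]; positivity
  rw [← ofReal_integral_eq_lintegral_ofReal (h3.const_mul c), integral_const_mul, h2,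
    ← ENNReal.ofReal_mul (by positivity)]
  · congr 1; field_simp
  · filter_upwards [ae_restrict_mem measurableSet_Ioi] with t ht
    have : 0 < t := ht
    simp only [Pi.zero_apply]
    positivity

section
variable {p : Fin 4 → Fin 3 → ℝ} {n : Fin 4 → Fin 4 → ℝ}

lemma hull_face (h : Tetra p n) {q : Fin 3 → ℝ} (hq : q ∈ convexHull ℝ (range p)) (j : Fin 4) :
    mink (n j) (lift q) ≤ 0 := by
  have hc : Convex ℝ {q : Fin 3 → ℝ | mink (n j) (lift q) ≤ 0} := by
    intro x hx y hy s t hs ht hst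
    simp only [mem_ofPred_eq, mink, lift] at hx hy ⊢
    simp at hx hy ⊢
    have e : n j 0 = s * n j 0 + t * n j 0 := by rw [← add_mul, hst, one_mul]
    nlinarith [mul_le_mul_of_nonneg_left hx hs, mul_le_mul_of_nonneg_left hy ht]
  refine convexHull_min ?_ hc hq
  rintro _ ⟨i, rfl⟩
  by_cases hij : i = j
  · subst hij; exact (h.outer i).le
  · exact (h.face i j hij).le

lemma hull_ball (h : Tetra p n) {q : Fin 3 → ℝ} (hq : q ∈ convexHull ℝ (range p)) :
    q 0 ^ 2 + q 1 ^ 2 + q 2 ^ 2 < 1 := by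
  have hc : Convex ℝ {q : Fin 3 → ℝ | q 0 ^ 2 + q 1 ^ 2 + q 2 ^ 2 < 1} := by
    intro x hx y hy s t hs ht hst
    simp only [mem_ofPred_eq, Pi.add_apply, Pi.smul_apply, smul_eq_mul] at hx hy ⊢
    have e : t = 1 - s := by linarith
    subst e
    have k : (s * x 0 + (1 - s) * y 0) ^ 2 + (s * x 1 + (1 - s) * y 1) ^ 2
        + (s * x 2 + (1 - s) * y 2) ^ 2 = s * (x 0 ^ 2 + x 1 ^ 2 + x 2 ^ 2)
        + (1 - s) * (y 0 ^ 2 + y 1 ^ 2 + y 2 ^ 2)
        - s * (1 - s) * ((x 0 - y 0) ^ 2 + (x 1 - y 1) ^ 2 + (x 2 - y 2) ^ 2) := by ring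
    have k2 : 0 ≤ s * (1 - s) * ((x 0 - y 0) ^ 2 + (x 1 - y 1) ^ 2 + (x 2 - y 2) ^ 2) := by
      positivity
    rw [k]
    rcases eq_or_lt_of_le hs with h0 | h0
    · subst h0; simpa using hy
    · nlinarith [mul_lt_mul_of_pos_left hx h0, mul_le_mul_of_nonneg_left hy.le ht]
  refine convexHull_min ?_ hc hq
  rintro _ ⟨i, rfl⟩
  exact h.ball i

/-- the last three coordinates -/
def tl (z : Fin 4 → ℝ) : Fin 3 → ℝ := fun k => z k.succ

lemma phi_eq (z : Fin 4 → ℝ) : phi z = z 0 • lift (tl z) := by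
  ext i; fin_cases i <;> simp [phi, lift, tl]

/-- the parametrisation of the orthant -/
def psi (n : Fin 4 → Fin 4 → ℝ) (z : Fin 4 → ℝ) : Fin 4 → ℝ := (-nm n) *ᵥ phi z

def dom (p : Fin 4 → Fin 3 → ℝ) : Set (Fin 4 → ℝ) :=
  {z | 0 < z 0 ∧ tl z ∈ convexHull ℝ (range p)}

lemma measurableSet_hull : MeasurableSet (convexHull ℝ (range p)) :=
  ((finite_range p).isClosed_convexHull ℝ).measurableSet

lemma measurable_tl : Measurable tl := by
  unfold tl; fun_prop

lemma measurableSet_dom : MeasurableSet (dom p) :=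
  (measurableSet_lt measurable_const (measurable_pi_apply 0)).inter (measurable_tl measurableSet_hull)

lemma psi_inj (h : Tetra p n) : InjOn (psi n) (dom p) := by
  intro z hz w hw hzw
  have h1 : phi z = phi w := by
    have := congrArg (fun y => (vm p * em p n) *ᵥ (-y)) hzw
    simpa only [psi, neg_mulVec, neg_neg, mulVec_mulVec, vm_nm h, one_mulVec] using this
  have h0 : z 0 = w 0 := by simpa [phi] using congrFun h1 0
  have hz0 : w 0 ≠ 0 := hw.1.ne'
  ext i
  fin_cases i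
  · exact h0
  · simpa [phi, h0, hz0] using congrFun h1 1
  · simpa [phi, h0, hz0] using congrFun h1 2
  · simpa [phi, h0, hz0] using congrFun h1 3

lemma psi_sub (h : Tetra p n) : psi n '' dom p ⊆ Ici 0 := by
  rintro _ ⟨z, hz, rfl⟩ i
  have := hull_face h hz.2 i
  simp only [psi, phi_eq, neg_mulVec, mulVec_smul, Pi.neg_apply, Pi.smul_apply, nm_mulVec,
    smul_eq_mul, Pi.zero_apply]
  nlinarith [hz.1]

lemma sub_psi (h : Tetra p n) : {y : Fin 4 → ℝ | ∀ i, 0 < y i} ⊆ psi n '' dom p := by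
  intro y hy
  set l : Fin 4 → ℝ := fun j => y j * (-(mink (n j) (lift (p j)))⁻¹) with hl
  have hl0 : ∀ j, 0 < l j := fun j =>
    mul_pos (hy j) (neg_pos.mpr (inv_lt_zero.mpr (h.outer j)))
  set t : ℝ := ∑ j, l j with ht
  have ht0 : 0 < t := Finset.sum_pos (fun j _ => hl0 j) Finset.univ_nonempty
  set q : Fin 3 → ℝ := ∑ j, (l j / t) • p j with hq
  refine ⟨![t, q 0, q 1, q 2], ⟨by simpa using ht0, ?_⟩, ?_⟩
  · have : tl ![t, q 0, q 1, q 2] = q := by
      ext i; fin_cases i <;> simp [tl]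
    rw [this]
    refine mem_convexHull_of_exists_fintype (fun j => l j / t) p
      (fun j => (div_pos (hl0 j) ht0).le) ?_ (fun j => ⟨j, rfl⟩) rfl
    rw [← Finset.sum_div, div_self ht0.ne']
  · have h1 : phi ![t, q 0, q 1, q 2] = (vm p * em p n) *ᵥ (-y) := by
      rw [← mulVec_mulVec]
      have h2 : em p n *ᵥ (-y) = l := by
        ext j; simp [em, mulVec_diagonal, hl]; ring
      rw [h2]
      ext i
      fin_cases i
      · simp [phi, vm, lift, mulVec, dotProduct, ht]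
      · simp [phi, vm, lift, mulVec, dotProduct, hq, Fin.sum_univ_four]; field_simp
      · simp [phi, vm, lift, mulVec, dotProduct, hq, Fin.sum_univ_four]; field_simp
      · simp [phi, vm, lift, mulVec, dotProduct, hq, Fin.sum_univ_four]; field_simp
    rw [psi, h1, mulVec_mulVec, Matrix.neg_mul, nm_vm h]
    simp [neg_mulVec]

lemma orth_ae (h : Tetra p n) :
    {y : Fin 4 → ℝ | ∀ i, 0 < y i} =ᵐ[volume] psi n '' dom p := by
  have h1 : {y : Fin 4 → ℝ | ∀ i, 0 < y i} =ᵐ[volume] Ici (0 : Fin 4 → ℝ) := by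
    have := Measure.univ_pi_Ioi_ae_eq_Ici (μ := fun _ : Fin 4 => (volume : Measure ℝ))
      (f := (0 : Fin 4 → ℝ))
    have e : {y : Fin 4 → ℝ | ∀ i, 0 < y i} = Set.pi univ fun i => Ioi ((0 : Fin 4 → ℝ) i) := by
      ext y; simp
    rw [e]; exact this
  exact (sub_psi h).eventuallyLE.antisymm ((psi_sub h).eventuallyLE.trans h1.symm.le)

lemma cone_lintegral (h : Tetra p n) (F : (Fin 4 → ℝ) → ℝ)
    (hF : ∀ x, F ((-nm n) *ᵥ x) = exp (mink x x / 2)) :
    ∫⁻ y in {y : Fin 4 → ℝ | ∀ i, 0 < y i}, ENNReal.ofReal (F y) =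
      ENNReal.ofReal (2 * |(nm n).det|) * ∫⁻ x in convexHull ℝ (range p),
        ENNReal.ofReal (1 / (1 - (x 0 ^ 2 + x 1 ^ 2 + x 2 ^ 2)) ^ 2) := by
  have hd : ∀ z ∈ dom p, HasFDerivWithinAt (psi n)
      (LinearMap.toContinuousLinearMap (Matrix.toLin' (-nm n * dphi z))) (dom p) z := by
    intro z _
    have := (LinearMap.toContinuousLinearMap (Matrix.toLin' (-nm n))).hasFDerivAt.comp z
      (hasFDerivAt_phi z)
    refine (this.congr_fderiv ?_).hasFDerivWithinAt
    ext v i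
    simp
  rw [setLIntegral_congr (orth_ae h),
    lintegral_image_eq_lintegral_abs_det_fderiv_mul volume measurableSet_dom hd (psi_inj h)]
  set g : ℝ × (Fin 3 → ℝ) → ENNReal := fun w => ENNReal.ofReal (|(nm n).det| *
    (w.1 ^ 3 * exp (-((1 - (w.2 0 ^ 2 + w.2 1 ^ 2 + w.2 2 ^ 2)) / 2) * w.1 ^ 2))) with hg
  have hgm : Measurable g := by
    rw [hg]; fun_prop
  set E := MeasurableEquiv.piFinSuccAbove (fun _ : Fin 4 => ℝ) 0 with hE
  have hE1 : ∀ z, E z = (z 0, tl z) := fun z => rfl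
  have hdom : dom p = E ⁻¹' (Ioi 0 ×ˢ convexHull ℝ (range p)) := by
    ext z; simp [dom, hE1]
  have h1 : ∫⁻ z in dom p, ENNReal.ofReal
      |(LinearMap.toContinuousLinearMap (Matrix.toLin' (-nm n * dphi z))).det| *
        ENNReal.ofReal (F (psi n z)) = ∫⁻ z in dom p, g (E z) := by
    refine setLIntegral_congr_fun measurableSet_dom fun z hz => ?_
    have hz0 := hz.1
    have e1 : (LinearMap.toContinuousLinearMap (Matrix.toLin' (-nm n * dphi z))).det =
        (nm n).det * z 0 ^ 3 := by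
      rw [ContinuousLinearMap.det, LinearMap.coe_toContinuousLinearMap, LinearMap.det_toLin',
        det_mul, det_dphi, det_neg]
      norm_num
    simp only [e1, hg, hE1, psi, hF]
    rw [← ENNReal.ofReal_mul (abs_nonneg _), abs_mul, abs_of_pos (pow_pos hz0 3), mul_assoc]
    congr 4
    simp [mink, phi, tl]
    ring
  rw [h1, hdom, (volume_preserving_piFinSuccAbove (fun _ : Fin 4 => ℝ) 0).setLIntegral_comp_preimage_emb
    E.measurableEmbedding, Measure.volume_eq_prod, ← Measure.prod_restrict,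
    lintegral_prod_symm' _ hgm, ← lintegral_const_mul _ (by fun_prop)]
  refine setLIntegral_congr_fun measurableSet_hull fun q hq => ?_
  exact radial (sub_pos.mpr (hull_ball h hq)) (abs_nonneg _)

end

/-- Klein volume = Gaussian integral over the cone -/
theorem geom {p : Fin 4 → Fin 3 → ℝ} {n : Fin 4 → Fin 4 → ℝ} (h : Tetra p n) {a b c d e f : ℝ}
    (ha : a = mink (n 0) (n 1)) (hb : b = mink (n 1) (n 3)) (hc : c = mink (n 1) (n 2))
    (hd : d = mink (n 0) (n 3)) (he : e = mink (n 0) (n 2)) (hf : f = mink (n 2) (n 3)) :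
    gdet a b c d e f < 0 ∧ Pos a b c d e f ∧
      hypVol (convexHull ℝ (Set.range p)) = gvol a b c d e f := by
  have hG : gm a b c d e f = nm n * jm * (nm n)ᵀ := by
    ext i j
    rw [njn]
    fin_cases i <;> fin_cases j <;> simp [gm, h.unit, ha, hb, hc, hd, he, hf] <;>
      exact mink_comm _ _
  have hD : gdet a b c d e f = -(nm n).det ^ 2 := by
    rw [← det_gm, hG, det_mul, det_mul, det_transpose, det_jm]; ring
  have hN := det_nm_ne h
  have hD0 : gdet a b c d e f < 0 := by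
    rw [hD]; exact neg_neg_of_pos (by positivity)
  set W := vm p * em p n with hW
  have hNW : nm n * W = 1 := nm_vm h
  have hWN : W * nm n = 1 := vm_nm h
  have hT : (nm n)ᵀ * Wᵀ = 1 := by rw [← transpose_mul, hWN, transpose_one]
  have hT' : Wᵀ * (nm n)ᵀ = 1 := by rw [← transpose_mul, hNW, transpose_one]
  have hA : am a b c d e f = gdet a b c d e f • (Wᵀ * jm * W) := by
    have h1 : Wᵀ * jm * W * gm a b c d e f = 1 := by
      rw [hG]
      calc Wᵀ * jm * W * (nm n * jm * (nm n)ᵀ)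
          = Wᵀ * (jm * ((W * nm n) * jm)) * (nm n)ᵀ := by simp only [Matrix.mul_assoc]
        _ = 1 := by rw [hWN, Matrix.one_mul, jm_mul_jm, Matrix.mul_one, hT']
    calc am a b c d e f = Wᵀ * jm * W * (gm a b c d e f * am a b c d e f) := by
          rw [← Matrix.mul_assoc, h1, Matrix.one_mul]
      _ = _ := by rw [gm_mul_am, Matrix.mul_smul, Matrix.mul_one]
  have hpos : ∀ i j, 0 < am a b c d e f i j := by
    intro i j
    have e1 : Wᵀ * jm * W = em p n * ((vm p)ᵀ * jm * vm p) * em p n := by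
      rw [hW, transpose_mul, em, diagonal_transpose]; simp only [Matrix.mul_assoc]
    rw [hA, Matrix.smul_apply, e1, em, mul_diagonal, diagonal_mul, vjv, smul_eq_mul]
    have h1 := inv_lt_zero.mpr (h.outer i)
    have h2 := inv_lt_zero.mpr (h.outer j)
    exact mul_pos_of_neg_of_neg hD0 (mul_neg_of_pos_of_neg
      (mul_pos_of_neg_of_neg h1 (mink_lift_neg h i j)) h2)
  refine ⟨hD0, ⟨hpos 0 0, hpos 1 1, hpos 2 2, hpos 3 3, hpos 0 1, hpos 0 2, hpos 0 3, hpos 1 2,
    hpos 1 3, hpos 2 3⟩, ?_⟩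
  have hF : ∀ x, exp (adjq a b c d e f ((-nm n) *ᵥ x) / (2 * gdet a b c d e f)) =
      exp (mink x x / 2) := by
    intro x
    have e1 : adjq a b c d e f ((-nm n) *ᵥ x) = gdet a b c d e f * mink x x := by
      rw [adjq_eq, neg_mulVec, mulVec_neg, neg_dotProduct_neg, hA, smul_mulVec, dotProduct_smul,
        mulVec_mulVec, Matrix.mul_assoc, hWN, Matrix.mul_one, ← mulVec_mulVec,
        dotProduct_mulVec, vecMul_transpose, mulVec_mulVec, hWN, one_mulVec, mink_eq, smul_eq_mul]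
    rw [e1]
    congr 1
    field_simp [hD0.ne]
  have hL := cone_lintegral h
    (fun y => exp (adjq a b c d e f y / (2 * gdet a b c d e f))) hF
  have hs : √(-gdet a b c d e f) = |(nm n).det| := by
    rw [hD, neg_neg, Real.sqrt_sq_eq_abs]
  have hN' : 0 < |(nm n).det| := abs_pos.mpr hN
  unfold hypVol gvol
  rw [integral_eq_lintegral_of_nonneg_ae (Filter.Eventually.of_forall fun x => by positivity)
      (Measurable.aestronglyMeasurable (by fun_prop)),
    integral_eq_lintegral_of_nonneg_ae (Filter.Eventually.of_forall fun x => (exp_pos _).le)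
      (Measurable.aestronglyMeasurable (by unfold adjq; fun_prop)), hL, hs, ENNReal.toReal_mul,
    ENNReal.toReal_ofReal (by positivity)]
  field_simp

end Pool.Agent.MP_b0afd3_gt.H14
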